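import Pool.Agent.Q57.WM.Str
import Pool.Agent.Y163.MX.Fin
import Pool.Agent.Y163.MW.Deg
import Pool.Agent.Y163.MW.WN

/-!
# The ranks of the high powers of `N` on `H^m` and the weights
-/

set_option autoImplicit false

open Module TensorProduct

namespace Pool.Agent.Q57.WM

open Pool.Agent.Y163.MW Pool.Agent.Y163.MW.Coh Pool.Agent.Y143 Pool.Agent.Y163.MX

universe u v w

section

variable {Ω : Type w} [Field Ω]

/-- The sum of the ranks of the powers `N ^ r`, `r > k`, on `H^m`. -/
noncomputable def rankTail (R : Coh.{v, w} Ω) (m k : ℕ) : ℤ :=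
  ∑ᶠ r : ℕ, if k < r then (finrank Ω ((R.gr m).map (R.N ^ r)) : ℤ) else 0

/-- The sum of the numbers `(2 (c - k) - 1)^+` over the eigenvalues of `F` on `H^m`, of weight
`m + c`. -/
noncomputable def weightTail [CharZero Ω] (R : Coh.{v, w} Ω) (q m k : ℕ) : ℤ :=
  ∑ᶠ c : ℤ, tz k c * (finrank Ω (R.exc q m c) : ℤ)

/-- The monodromy-weight conjecture for `H^m` in the range above `k`: for all `c > k` the power
`N ^ c` is a bijection from the part of weight `m + c` of `H^m` to the part of weight `m - c`. -/
def WMAbove [CharZero Ω] (R : Coh.{v, w} Ω) (q m k : ℕ) : Prop :=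
  PureAbove (R.exc q m) R.N k

end

variable {Ω : Type w} [Field Ω] [CharZero Ω] [IsAlgClosed Ω] {R : Coh.{v, w} Ω} {q : ℕ}

lemma finrank_exc_neg (hq : 1 < q) (hR : R.IsCoh q) (m : ℕ) (c : ℤ) :
    finrank Ω (R.exc q m c) = finrank Ω (R.exc q m (-c)) := by
  have := hR.finite
  have key : ∀ c : ℤ, finrank Ω (R.exc q m c) ≤ finrank Ω (R.exc q m (-c)) := by
    intro c
    obtain ⟨B, hB⟩ := hR.dual
    have hB0 : ∀ x, (∀ y, B x y = 0) → x = 0 := hB.nondeg
    have hB1 : ∀ m m' x y, x ∈ R.gr m → y ∈ R.gr m' → m ≠ m' → B x y = 0 := hB.orth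
    have hB2 : ∀ m x y, x ∈ R.gr m → y ∈ R.gr m → B (R.F x) (R.F y) = (q : Ω) ^ m * B x y :=
      hB.frob
    let φ : R.exc q m c →ₗ[Ω] Module.Dual Ω (R.exc q m (-c)) :=
      { toFun := fun x => (B x).comp (R.exc q m (-c)).subtype
        map_add' := fun x y => by ext z; simp
        map_smul' := fun a x => by ext z; simp }
    have hφ : Function.Injective φ := by
      rw [← LinearMap.ker_eq_bot, LinearMap.ker_eq_bot']
      intro x hx
      apply Subtype.ext
      apply hB0
      have h1 : ∀ m' c', ∀ y ∈ R.exc q m' c', B x y = 0 := by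
        intro m' c' y hy
        by_cases hm : m' = m
        · subst hm
          by_cases hc : c' = -c
          · subst hc
            exact DFunLike.congr_fun hx ⟨y, hy⟩
          · have h2 : R.exc q m' c ≤ LinearMap.ker (B.flip y) := by
              refine iSup₂_le fun α hα z hz => ?_
              rw [LinearMap.mem_ker, LinearMap.flip_apply]
              have h4 : R.exc q m' c' ≤ LinearMap.ker (B z) := by
                refine iSup₂_le fun β hβ t ht => ?_
                rw [LinearMap.mem_ker]
                refine gen_orth (hR.F_gr m') (hB2 m') ?_ (Submodule.mem_inf.1 hz).1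
                  (Submodule.mem_inf.1 ht).1 (Submodule.mem_inf.1 hz).2
                  (Submodule.mem_inf.1 ht).2
                intro h5
                have h6 := weil_mul (by omega) hα hβ
                rw [h5] at h6
                have h7 := weil_unique hq h6 (weil_natPow (by omega) m')
                omega
              exact LinearMap.mem_ker.1 (h4 hy)
            exact LinearMap.mem_ker.1 (h2 x.2)
        · exact hB1 m m' x y (exc_le m c x.2) (exc_le m' c' hy) (Ne.symm hm)
      intro y
      have h8 : (⊤ : Submodule Ω R.V) ≤ LinearMap.ker (B x) := by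
        rw [← hR.isInternal.submodule_iSup_eq_top]
        refine iSup_le fun m' => ?_
        rw [← iSup_exc hR m']
        exact iSup_le fun c' y hy => LinearMap.mem_ker.2 (h1 m' c' y hy)
      exact LinearMap.mem_ker.1 (h8 (Submodule.mem_top))
    have := LinearMap.finrank_le_finrank_of_injective hφ
    rwa [Subspace.dual_finrank_eq] at this
  apply le_antisymm (key c)
  have := key (-c)
  rwa [neg_neg] at this

/-- The restriction to a subspace. -/
lemma pureAbove_comap {K : Type u} [Field K] {V : Type v} [AddCommGroup V] [Module K V]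
    {S : Submodule K V} {W : ℤ → Submodule K V} {N : Module.End K V}
    (hS : ∀ x ∈ S, N x ∈ S) (hW : ∀ c, W c ≤ S) (n : ℕ) :
    PureAbove (fun c => (W c).comap S.subtype) (N.restrict hS) n ↔ PureAbove W N n := by
  have hpow : ∀ (k : ℕ) (x : S), (((N.restrict hS) ^ k) x : V) = (N ^ k) x := by
    intro k x
    rw [Module.End.pow_restrict]
    rfl
  constructor
  · intro h a ha
    refine ⟨fun x hx h0 => ?_, fun y hy => ?_⟩
    · have h1 := (h a ha).1 ⟨x, hW _ hx⟩ hx (Subtype.ext (by rw [hpow]; exact h0))
      exact congrArg Subtype.val h1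
    · obtain ⟨x, hx, hx'⟩ := (h a ha).2 ⟨y, hW _ hy⟩ hy
      exact ⟨x, hx, by rw [← hpow, hx']⟩
  · intro h a ha
    refine ⟨fun x hx h0 => ?_, fun y hy => ?_⟩
    · apply Subtype.ext
      apply (h a ha).1 x hx
      rw [← hpow, h0]
      rfl
    · obtain ⟨x, hx, hx'⟩ := (h a ha).2 y hy
      exact ⟨⟨x, hW _ hx⟩, hx, Subtype.ext (by rw [hpow]; exact hx')⟩

/-- The sum of the ranks of the powers of `N` above the `k`-th is at most the sum of the numbers
`(2 (c - k) - 1)^+` for the weights; equality is the monodromy-weight conjecture above `k`. -/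
theorem tail_deg (hq : 1 < q) (hR : R.IsCoh q) (m k : ℕ) :
    rankTail R m k ≤ weightTail R q m k ∧
      (rankTail R m k = weightTail R q m k ↔ WMAbove R q m k) := by
  have := hR.finite
  have hi := internal_comap (indep_exc_deg hq hR m) (iSup_exc hR m)
  have h := tail (V := R.gr m) (N := R.N.restrict (hR.N_gr m)) hi
    (fun c x hx => N_exc hq hR m c x hx) (fun c => by
      rw [finrank_comap (exc_le m c), finrank_comap (exc_le m (-c)), finrank_exc_neg hq hR]) k
  rw [pureAbove_comap (hR.N_gr m) (exc_le m)] at h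
  have e1 : rankTail R m k =
      ∑ᶠ r : ℕ, if k < r then
        (finrank Ω (LinearMap.range ((R.N.restrict (hR.N_gr m)) ^ r)) : ℤ) else 0 := by
    refine finsum_congr fun r => ?_
    rw [finrank_range_restrict]
  have e2 : weightTail R q m k =
      ∑ᶠ c : ℤ, tz k c * (finrank Ω ((R.exc q m c).comap (R.gr m).subtype) : ℤ) := by
    refine finsum_congr fun c => ?_
    rw [finrank_comap (exc_le m c)]
  rw [e1, e2]
  exact h

/-- The monodromy-weight conjecture above `0` is mw purity. -/
theorem wmAbove_zero (hq : 1 < q) (hR : R.IsCoh q) (m : ℕ) :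
    WMAbove R q m 0 ↔ R.MWPure q m := by
  rw [mwPure_iff hq hR]
  constructor
  · intro h a
    rcases Nat.eq_zero_or_pos a with rfl | ha
    · refine ⟨fun x _ h0 => by simpa using h0, fun y hy => ⟨y, by simpa using hy, by simp⟩⟩
    · exact h a ha
  · intro h a _
    exact h a

end Pool.Agent.Q57.WM
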