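import Pool.Agent.Q57.WM.Slope

/-!
# All cohomology theories at once
-/

set_option autoImplicit false

open Module

namespace Pool.Agent.Q57.WM

open Pool.Agent.H914 Pool.Agent.Y163.MW Pool.Agent.Y143 Pool.Agent.Y163.MX

universe u v w

/-- The data given by the cohomology theories for the smooth proper varieties over a finite
extension `K` of `ℚ_p`: the `ℓ`-adic cohomology for the prime numbers `ℓ ≠ p` (the elements of `ι`)
and the Hyodo-Kato cohomology (`none`), with the Frobenius `F` and the monodromy operator `N`, the
coefficients being extended to one algebraically closed field `Ω` (for instance the complex numbers,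
by the choice of embeddings of the coefficient fields); the Hodge numbers; and an extension to `Ω` of
the `p`-adic valuation, normalized by `val q = 1`. -/
structure Theories (K : Type u) [Field K] (Ω : Type w) [Field Ω] where
  /-- the prime numbers `ℓ ≠ p` -/
  ι : Type
  /-- the cohomology theories -/
  H : Option ι → SmVar.{u} K → Coh.{v, w} Ω
  /-- the Hodge numbers `hodge X m a = h^(a, m - a)(X)` -/
  hodge : SmVar.{u} K → ℕ → ℕ → ℕ
  /-- the valuation -/
  val : Ω → ℝ

/-- The quotient of the products of the characteristic polynomials of `F` on the `H^j`, `j ≤ k`, with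
`j` even and with `j` odd is a rational function with rational coefficients, the same one for all
cohomology theories `R i`. -/
def SameZeta {Ω : Type w} [Field Ω] [CharZero Ω] {J : Type} (R : J → Coh.{v, w} Ω) (k : ℕ) : Prop :=
  ∃ P Q : Polynomial Ω, P ≠ 0 ∧ Q ≠ 0 ∧ RationalPoly P ∧ RationalPoly Q ∧
    ∀ i, (∏ j ∈ (Finset.range (k + 1)).filter Even, charP (R i) j) * Q =
      (∏ j ∈ (Finset.range (k + 1)).filter (fun j => ¬ Even j), charP (R i) j) * P

/-- The known properties of the cohomology of the smooth projective variety `X`: `F` and `N` respect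
the degrees, `N F = q F N`, the eigenvalues of `F` are `q`-Weil numbers, Poincare duality and the
hard Lefschetz theorem; the Newton polygon of the Hyodo-Kato cohomology lies above the Hodge polygon;
and the alternating products of the characteristic polynomials of `F` are rational and the same for
all the theories. -/
structure Theories.IsLocal {K : Type u} [Field K] {Ω : Type w} [Field Ω] [CharZero Ω]
    (T : Theories.{u, v, w} K Ω) (q : ℕ) (X : SmVar.{u} K) : Prop where
  coh : ∀ i, (T.H i X).IsCoh q
  val : IsVal q T.val
  polygons : ∀ m, NewtonAboveHodge (T.H none X) T.val m (T.hodge X m)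
  zeta : SameZeta (fun i => T.H i X) (2 * X.dim)

/-- The cohomology in the degrees `j ≤ k`, `j ≠ m`, is good: the characteristic polynomial of `F` on
`H^j` has rational coefficients and is the same for all the theories `R i` (this is the case, for
instance, if `H^j` is generated by classes of algebraic cycles). -/
def GoodOutside {Ω : Type w} [Field Ω] [CharZero Ω] {J : Type} (R : J → Coh.{v, w} Ω)
    (k m : ℕ) : Prop :=
  ∀ j, j ≤ k → j ≠ m → ∃ f : Polynomial Ω, RationalPoly f ∧ ∀ i, charP (R i) j = f

section

variable {Ω : Type w} [Field Ω] [CharZero Ω] {q : ℕ}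

/-- If the cohomology outside of the degree `m` is good, then the characteristic polynomials on
`H^m` are rational and equal. -/
theorem same_charP {J : Type} {R : J → Coh.{v, w} Ω} (hR : ∀ i, (R i).IsCoh q) {k m : ℕ}
    (hm : m ≤ k) (h : SameZeta R k) (hg : GoodOutside R k m) :
    (∀ i, RationalPoly (charP (R i) m)) ∧ ∀ i i', charP (R i) m = charP (R i') m := by
  classical
  obtain ⟨P, Q, hP0, hQ0, hP, hQ, hPQ⟩ := h
  constructor
  · intro i
    refine rational_of_others (hR i) hm ⟨P, Q, hP0, hQ0, hP, hQ, hPQ i⟩ fun j hj hjm => ?_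
    obtain ⟨f, hf, hf'⟩ := hg j hj hjm
    rw [hf' i]
    exact hf
  · intro i i'
    have hne : ∀ (i : J) (s : Finset ℕ), ∏ j ∈ s, charP (R i) j ≠ 0 := fun i s =>
      Finset.prod_ne_zero_iff.2 fun j _ => charP_ne_zero (hR i) j
    have hsame : ∀ s : Finset ℕ, (∀ j ∈ s, j ≤ k ∧ j ≠ m) →
        ∏ j ∈ s, charP (R i) j = ∏ j ∈ s, charP (R i') j := by
      intro s hs
      refine Finset.prod_congr rfl fun j hj => ?_
      obtain ⟨f, -, hf'⟩ := hg j (hs j hj).1 (hs j hj).2
      rw [hf' i, hf' i']
    have h1 := hPQ i
    have h2 := hPQ i'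
    by_cases hev : Even m
    · have hmem : m ∈ (Finset.range (k + 1)).filter Even :=
        Finset.mem_filter.2 ⟨Finset.mem_range.2 (by omega), hev⟩
      rw [← Finset.mul_prod_erase _ _ hmem, mul_assoc] at h1 h2
      have e1 : ∏ j ∈ ((Finset.range (k + 1)).filter Even).erase m, charP (R i) j =
          ∏ j ∈ ((Finset.range (k + 1)).filter Even).erase m, charP (R i') j := by
        refine hsame _ fun j hj => ?_
        have h3 := Finset.mem_erase.1 hj
        have h4 := Finset.mem_filter.1 h3.2
        exact ⟨by have := Finset.mem_range.1 h4.1; omega, h3.1⟩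
      have e2 : ∏ j ∈ (Finset.range (k + 1)).filter (fun j => ¬ Even j), charP (R i) j =
          ∏ j ∈ (Finset.range (k + 1)).filter (fun j => ¬ Even j), charP (R i') j := by
        refine hsame _ fun j hj => ?_
        have h4 := Finset.mem_filter.1 hj
        refine ⟨by have := Finset.mem_range.1 h4.1; omega, ?_⟩
        rintro rfl
        exact h4.2 hev
      rw [e1, e2, ← h2] at h1
      exact mul_right_cancel₀ (mul_ne_zero (hne i' _) hQ0) h1
    · have hmem : m ∈ (Finset.range (k + 1)).filter (fun j => ¬ Even j) :=
        Finset.mem_filter.2 ⟨Finset.mem_range.2 (by omega), hev⟩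
      rw [← Finset.mul_prod_erase _ _ hmem, mul_assoc] at h1 h2
      have e1 : ∏ j ∈ ((Finset.range (k + 1)).filter (fun j => ¬ Even j)).erase m,
          charP (R i) j = ∏ j ∈ ((Finset.range (k + 1)).filter (fun j => ¬ Even j)).erase m,
          charP (R i') j := by
        refine hsame _ fun j hj => ?_
        have h3 := Finset.mem_erase.1 hj
        have h4 := Finset.mem_filter.1 h3.2
        exact ⟨by have := Finset.mem_range.1 h4.1; omega, h3.1⟩
      have e2 : ∏ j ∈ (Finset.range (k + 1)).filter Even, charP (R i) j =
          ∏ j ∈ (Finset.range (k + 1)).filter Even, charP (R i') j := by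
        refine hsame _ fun j hj => ?_
        have h4 := Finset.mem_filter.1 hj
        refine ⟨by have := Finset.mem_range.1 h4.1; omega, ?_⟩
        rintro rfl
        exact hev h4.2
      rw [e1, e2, h2] at h1
      exact (mul_right_cancel₀ (mul_ne_zero (hne i' _) hP0) h1).symm

lemma mult_congr {R R' : Coh.{v, w} Ω} (hR : R.IsCoh q) (hR' : R'.IsCoh q) {m : ℕ}
    (h : charP R m = charP R' m) (α : Ω) : mult R m α = mult R' m α := by
  rw [← rootMultiplicity_charP hR, ← rootMultiplicity_charP hR', h]

lemma slopeTail_congr {R R' : Coh.{v, w} Ω} (hR : R.IsCoh q) (hR' : R'.IsCoh q) {m : ℕ}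
    (h : charP R m = charP R' m) (val : Ω → ℝ) (k : ℕ) :
    slopeTail R val m k = slopeTail R' val m k := by
  unfold slopeTail
  exact finsum_congr fun α => by rw [mult_congr hR hR' h]

lemma weightTail_congr [IsAlgClosed Ω] (hq : 1 < q) {R R' : Coh.{v, w} Ω} (hR : R.IsCoh q)
    (hR' : R'.IsCoh q) {m : ℕ} (h : charP R m = charP R' m) (k : ℕ) :
    weightTail R q m k = weightTail R' q m k := by
  have h1 : (weightTail R q m k : ℝ) = (weightTail R' q m k : ℝ) := by
    rw [weightTail_finsum hq hR, weightTail_finsum hq hR']
    exact finsum_congr fun α => by rw [mult_congr hR hR' h]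
  exact_mod_cast h1

end

end Pool.Agent.Q57.WM
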