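import Pool.Agent.Q57.WM.Deg

/-!
# Weights, slopes and Hodge numbers
-/

set_option autoImplicit false

open Module

namespace Pool.Agent.Q57.WM

open Pool.Agent.Y163.MW Pool.Agent.Y143 Pool.Agent.Y163.MX

universe u v w

/-- The number `(2 (x - k) - 1)^+` for real `x`. -/
noncomputable def hinge (k : ℕ) (x : ℝ) : ℝ := max (2 * (x - k) - 1) 0

lemma hinge_int (k : ℕ) (x : ℤ) : hinge k (x : ℝ) = (tz k x : ℝ) := by
  unfold hinge tz
  push_cast
  rfl

lemma hinge_convex (k : ℕ) (x y z : ℝ) (h : x + y = 2 * z) : 2 * hinge k z ≤ hinge k x + hinge k y := by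
  have h1 : 2 * (x - k) - 1 ≤ hinge k x := le_max_left _ _
  have h2 : 0 ≤ hinge k x := le_max_right _ _
  have h3 : 2 * (y - k) - 1 ≤ hinge k y := le_max_left _ _
  have h4 : 0 ≤ hinge k y := le_max_right _ _
  have h5 : hinge k z ≤ (hinge k x + hinge k y) / 2 := by
    refine max_le ?_ ?_ <;> linarith
  linarith

section

variable {Ω : Type w} [Field Ω]

/-- The sum of the numbers `(2 (2 λ - m - k) - 1)^+` over the slopes `λ` of `F` on `H^m`. -/
noncomputable def slopeTail (R : Coh.{v, w} Ω) (val : Ω → ℝ) (m k : ℕ) : ℝ :=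
  ∑ᶠ α : Ω, hinge k (2 * val α - m) * (mult R m α : ℝ)

/-- The sum of the numbers `(2 (a - b - k) - 1)^+ h^(a, b)`, `a + b = m`. -/
noncomputable def hodgeTail (m k : ℕ) (hdg : ℕ → ℕ) : ℤ :=
  ∑ᶠ a : ℕ, tz k (2 * (a : ℤ) - m) * (hdg a : ℤ)

end

variable {Ω : Type w} [Field Ω] [CharZero Ω] {R : Coh.{v, w} Ω} {q : ℕ}

/-- Summation over the eigenvalues and over their complex conjugates. -/
lemma conj_sum (hq : 1 < q) (hR : R.IsCoh q) {m : ℕ} (hrat : RationalPoly (charP R m))
    (φ : Ω → ℝ) : ∑ᶠ α : Ω, φ α * (mult R m α : ℝ) =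
      ∑ᶠ α : Ω, φ ((q : Ω) ^ (Coh.wtf q α) / α) * (mult R m α : ℝ) := by
  classical
  have hfin := finite_mult hR m
  have hq0 : (q : Ω) ≠ 0 := Nat.cast_ne_zero.2 (by omega)
  have h1 : ∀ ψ : Ω → ℝ, ∑ᶠ α : Ω, ψ α * (mult R m α : ℝ) =
      ∑ α ∈ hfin.toFinset, ψ α * (mult R m α : ℝ) := by
    intro ψ
    refine finsum_eq_sum_of_support_subset _ ?_
    intro α hα
    rw [Set.Finite.coe_toFinset]
    intro h0
    apply hα
    simp only
    rw [h0]
    simp
  rw [h1, h1 (fun α => φ ((q : Ω) ^ (Coh.wtf q α) / α))]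
  have hw : ∀ α ∈ hfin.toFinset, IsWeilNumber q (Coh.wtf q α) α := by
    intro α hα
    rw [Set.Finite.mem_toFinset] at hα
    obtain ⟨w, hw⟩ : ∃ w : ℤ, IsWeilNumber q w α := by
      by_contra hcon
      exact hα (mult_eq_zero hR hcon)
    rwa [Coh.wtf_eq hq hw]
  have hm : ∀ α ∈ hfin.toFinset, mult R m ((q : Ω) ^ (Coh.wtf q α) / α) = mult R m α :=
    fun α hα => mult_conj hq hR hrat (hw α hα)
  have hwι : ∀ α ∈ hfin.toFinset, Coh.wtf q ((q : Ω) ^ (Coh.wtf q α) / α) = Coh.wtf q α :=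
    fun α hα => Coh.wtf_eq hq (weil_conj hq (hw α hα))
  have hι : ∀ α ∈ hfin.toFinset, (q : Ω) ^ (Coh.wtf q α) / α ∈ hfin.toFinset := by
    intro α hα
    have h2 := hm α hα
    rw [Set.Finite.mem_toFinset] at hα ⊢
    show mult R m _ ≠ 0
    rw [h2]
    exact hα
  have hιι : ∀ α ∈ hfin.toFinset, (q : Ω) ^ (Coh.wtf q ((q : Ω) ^ (Coh.wtf q α) / α)) /
      ((q : Ω) ^ (Coh.wtf q α) / α) = α := by
    intro α hα
    have hα0 : α ≠ 0 := weil_ne_zero (by omega) (hw α hα)
    rw [hwι α hα]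
    have := zpow_ne_zero (Coh.wtf q α) hq0
    field_simp
  symm
  refine Finset.sum_bij (fun α _ => (q : Ω) ^ (Coh.wtf q α) / α) (fun α hα => hι α hα) ?_ ?_ ?_
  · intro α hα β hβ h
    rw [← hιι α hα, ← hιι β hβ]
    rw [h]
  · intro α hα
    exact ⟨(q : Ω) ^ (Coh.wtf q α) / α, hι α hα, hιι α hα⟩
  · intro α hα
    rw [hm α hα]

/-- The valuation of the complex conjugate. -/
lemma val_conj (hq : 1 < q) {val : Ω → ℝ} (hv : IsVal q val) {w : ℤ} {α : Ω}
    (hα : IsWeilNumber q w α) : val ((q : Ω) ^ w / α) = w - val α := by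
  have hq0 : (q : Ω) ≠ 0 := Nat.cast_ne_zero.2 (by omega)
  have hvz : ∀ n : ℕ, val ((q : Ω) ^ n) = n := by
    intro n
    induction n with
    | zero =>
      have h3 := hv.mul 1 1 one_ne_zero one_ne_zero
      rw [mul_one] at h3
      rw [pow_zero]
      push_cast
      linarith
    | succ n ih =>
      rw [pow_succ, hv.mul _ _ (pow_ne_zero _ hq0) hq0, ih, hv.norm]
      push_cast
      ring
  have hvq : ∀ n : ℤ, val ((q : Ω) ^ n) = n := by
    intro n
    rcases le_total 0 n with hn | hn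
    · obtain ⟨k, rfl⟩ := Int.eq_ofNat_of_zero_le hn
      rw [zpow_natCast, hvz]
      simp
    · obtain ⟨k, hk⟩ : ∃ k : ℕ, n = -(k : ℤ) := ⟨n.natAbs, by omega⟩
      subst hk
      have h4 := hv.mul ((q : Ω) ^ (-(k : ℤ))) ((q : Ω) ^ k) (zpow_ne_zero _ hq0)
        (pow_ne_zero _ hq0)
      rw [← zpow_natCast (q : Ω) k, ← zpow_add₀ hq0, neg_add_cancel, zpow_zero, zpow_natCast,
        hvz] at h4
      have h5 := hvz 0
      rw [pow_zero] at h5
      rw [h5] at h4
      push_cast at h4 ⊢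
      linarith
  have hα0 : α ≠ 0 := weil_ne_zero (by omega) hα
  have h3 := hv.mul ((q : Ω) ^ w / α) α (div_ne_zero (zpow_ne_zero _ hq0) hα0) hα0
  have h4 : (q : Ω) ^ w / α * α = (q : Ω) ^ w := div_mul_cancel₀ _ hα0
  rw [h4, hvq] at h3
  linarith

/-- The weights as a sum over a basis. -/
lemma weightTail_eq (hq : 1 < q) (hR : R.IsCoh q) {I : Type w} [Fintype I] {b : Basis I Ω R.V}
    {p : I → ℕ × Ω} (hb : ∀ i, b i ∈ R.pc (p i)) (m k : ℕ) :
    weightTail R q m k = ∑ i : {i // (p i).1 = m}, tz k (Coh.wtf q (p i.1).2 - (m : ℤ)) := by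
  classical
  rw [← finsum_card (fun i : {i // (p i).1 = m} => Coh.wtf q (p i.1).2 - (m : ℤ)) (tz k)]
  unfold weightTail
  refine finsum_congr fun c => ?_
  rw [finrank_exc hq hR hb m c]
  congr 2
  refine Nat.card_congr ?_
  refine (Equiv.subtypeEquivRight fun i => ?_).trans
    (Equiv.subtypeSubtypeEquivSubtypeInter (fun i => (p i).1 = m)
      (fun i => Coh.wtf q (p i).2 - (m : ℤ) = c)).symm
  rw [Prod.ext_iff]
  constructor
  · rintro ⟨h1, h2⟩
    simp only at h1 h2
    exact ⟨h1, by rw [← h1]; exact h2⟩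
  · rintro ⟨h1, h2⟩
    exact ⟨h1, by simp only; rw [h1]; exact h2⟩

/-- The weights as a sum over the eigenvalues. -/
lemma weightTail_finsum [IsAlgClosed Ω] (hq : 1 < q) (hR : R.IsCoh q) (m k : ℕ) :
    (weightTail R q m k : ℝ) =
      ∑ᶠ α : Ω, hinge k ((Coh.wtf q α : ℝ) - m) * (mult R m α : ℝ) := by
  obtain ⟨I, _, b, p, hb⟩ := exists_basis hR
  rw [finsum_mult hR hb m (fun α => hinge k ((Coh.wtf q α : ℝ) - m)), weightTail_eq hq hR hb]
  push_cast
  refine Finset.sum_congr rfl fun i _ => ?_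
  rw [← hinge_int]
  push_cast
  rfl

/-- Weights and slopes. -/
theorem weight_le_slope [IsAlgClosed Ω] (hq : 1 < q) (hR : R.IsCoh q) {m : ℕ}
    (hrat : RationalPoly (charP R m)) {val : Ω → ℝ} (hv : IsVal q val) (k : ℕ) :
    (weightTail R q m k : ℝ) ≤ slopeTail R val m k := by
  classical
  obtain ⟨I, _, b, p, hb⟩ := exists_basis hR
  have h1 := conj_sum hq hR hrat (fun α => hinge k (2 * val α - m))
  rw [weightTail_finsum hq hR]
  unfold slopeTail
  have h2 : ∑ᶠ α : Ω, hinge k (2 * val α - m) * (mult R m α : ℝ) +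
      ∑ᶠ α : Ω, hinge k (2 * val ((q : Ω) ^ (Coh.wtf q α) / α) - m) * (mult R m α : ℝ) ≥
      2 * ∑ᶠ α : Ω, hinge k ((Coh.wtf q α : ℝ) - m) * (mult R m α : ℝ) := by
    rw [finsum_mult hR hb m (fun α => hinge k (2 * val α - m)),
      finsum_mult hR hb m (fun α => hinge k (2 * val ((q : Ω) ^ (Coh.wtf q α) / α) - m)),
      finsum_mult hR hb m (fun α => hinge k ((Coh.wtf q α : ℝ) - m)), ← Finset.sum_add_distrib,
      Finset.mul_sum]
    refine Finset.sum_le_sum fun i _ => ?_
    refine hinge_convex k _ _ _ ?_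
    obtain ⟨w, hw⟩ := weil_p hR hb i.1
    rw [Coh.wtf_eq hq hw, val_conj hq hv hw]
    ring
  rw [← h1] at h2
  linarith

/-- The inequality of Karamata for `x ↦ (2 (2 x - c - k) - 1)^+`. -/
theorem karamata_hinge {n : ℕ} (v a : Fin n → ℝ) (hv : Monotone v)
    (hle : ∀ k : ℕ, ∑ i ∈ Finset.univ.filter (fun i : Fin n => (i : ℕ) < k), a i ≤
      ∑ i ∈ Finset.univ.filter (fun i : Fin n => (i : ℕ) < k), v i)
    (heq : ∑ i, a i = ∑ i, v i) (c : ℝ) (k : ℕ) :
    ∑ i, hinge k (2 * v i - c) ≤ ∑ i, hinge k (2 * a i - c) := by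
  classical
  let s : Fin n → ℝ := fun i => if 1 < 2 * (2 * v i - c - k) then 4 else 0
  let V : ℕ → ℝ := fun i => if h : i < n then s ⟨i, h⟩ else 0
  let D : ℕ → ℝ := fun i => if h : i < n then a ⟨i, h⟩ - v ⟨i, h⟩ else 0
  have hpart : ∀ k, k ≤ n → ∑ i ∈ Finset.range k, D i =
      ∑ i ∈ Finset.univ.filter (fun i : Fin n => (i : ℕ) < k), a i -
        ∑ i ∈ Finset.univ.filter (fun i : Fin n => (i : ℕ) < k), v i := by
    intro k hk
    rw [← Finset.sum_sub_distrib]
    symm
    refine Finset.sum_bij (fun i _ => (i : ℕ)) ?_ ?_ ?_ ?_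
    · intro i hi
      exact Finset.mem_range.2 (Finset.mem_filter.1 hi).2
    · intro i _ j _ hij
      exact Fin.ext hij
    · intro i hi
      have h1 := Finset.mem_range.1 hi
      exact ⟨⟨i, by omega⟩, Finset.mem_filter.2 ⟨Finset.mem_univ _, h1⟩, rfl⟩
    · intro i hi
      simp only [D]
      rw [dif_pos i.2]
  have h1 := abel_nonneg n V D ?_ ?_ ?_
  · have h2 : ∑ i ∈ Finset.range n, V i * D i = ∑ i : Fin n, s i * (a i - v i) := by
      rw [Finset.sum_range]
      refine Finset.sum_congr rfl fun i _ => ?_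
      simp only [V, D]
      rw [dif_pos i.2, dif_pos i.2]
    rw [h2] at h1
    have h3 : ∀ i, hinge k (2 * v i - c) + s i * (a i - v i) ≤ hinge k (2 * a i - c) := by
      intro i
      have h4 : 2 * (2 * a i - c - k) - 1 ≤ hinge k (2 * a i - c) := le_max_left _ _
      have h5 : 0 ≤ hinge k (2 * a i - c) := le_max_right _ _
      by_cases h : 1 < 2 * (2 * v i - c - k)
      · have h6 : hinge k (2 * v i - c) = 2 * (2 * v i - c - k) - 1 := by
          unfold hinge
          exact max_eq_left (by linarith)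
        have h7 : s i = 4 := if_pos h
        rw [h6, h7]
        linarith
      · have h6 : hinge k (2 * v i - c) = 0 := by
          unfold hinge
          exact max_eq_right (by linarith)
        have h7 : s i = 0 := if_neg h
        rw [h6, h7]
        linarith
    have h8 := Finset.sum_le_sum (s := Finset.univ) fun i (_ : i ∈ Finset.univ) => h3 i
    rw [Finset.sum_add_distrib] at h8
    linarith
  · intro i hi
    simp only [V]
    rw [dif_pos (by omega), dif_pos hi]
    have h9 : v ⟨i, by omega⟩ ≤ v ⟨i + 1, hi⟩ := hv (by rw [Fin.mk_le_mk]; omega)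
    simp only [s]
    split_ifs with h10 h11 h11
    · exact le_rfl
    · exfalso
      apply h11
      linarith
    · norm_num
    · exact le_rfl
  · intro k hk
    rw [hpart k hk]
    have := hle k
    linarith
  · rw [hpart n le_rfl]
    have h4 : Finset.univ.filter (fun i : Fin n => (i : ℕ) < n) = Finset.univ := by
      ext i
      simp
    rw [h4, heq, sub_self]

/-- Slopes and Hodge numbers. -/
theorem slope_le_hodge {val : Ω → ℝ} {m : ℕ} {hdg : ℕ → ℕ} (h : NewtonAboveHodge R val m hdg)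
    (k : ℕ) : slopeTail R val m k ≤ (hodgeTail m k hdg : ℝ) := by
  obtain ⟨n, α, a, hα, ha, hmv, hma, hle, heq⟩ := h
  have h1 : slopeTail R val m k = ∑ i, hinge k (2 * val (α i) - (m : ℝ)) := by
    rw [← finsum_fib α (fun x => hinge k (2 * val x - (m : ℝ)))]
    unfold slopeTail
    refine finsum_congr fun x => ?_
    rw [hα]
  have h2 : (hodgeTail m k hdg : ℝ) = ∑ i, hinge k (2 * (a i : ℝ) - (m : ℝ)) := by
    classical
    have h3 : hodgeTail m k hdg = ∑ i, tz k (2 * (a i : ℤ) - m) := by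
      unfold hodgeTail
      rw [finsum_congr (fun c => by rw [← ha c])]
      rw [finsum_eq_sum_of_support_subset (s := Finset.univ.image a)]
      · rw [← Finset.sum_fiberwise_of_maps_to (s := Finset.univ) (t := Finset.univ.image a)
          (g := a) (fun g _ => Finset.mem_image_of_mem _ (Finset.mem_univ _))]
        refine Finset.sum_congr rfl fun c _ => ?_
        rw [Finset.sum_congr rfl (g := fun _ => tz k (2 * (c : ℤ) - m))
          (fun g hg => by rw [(Finset.mem_filter.1 hg).2]), Finset.sum_const, nsmul_eq_mul,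
          mul_comm]
        congr 2
        rw [Nat.card_eq_fintype_card, Fintype.card_subtype]
      · intro c hc
        rw [Function.mem_support] at hc
        by_contra hcon
        apply hc
        have : IsEmpty {g // a g = c} := ⟨fun g => hcon (by
          rw [Finset.coe_image]
          exact ⟨g.1, Finset.mem_coe.2 (Finset.mem_univ _), g.2⟩)⟩
        rw [Nat.card_of_isEmpty]
        simp
    rw [h3]
    push_cast
    refine Finset.sum_congr rfl fun i _ => ?_
    rw [← hinge_int]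
    push_cast
    rfl
  rw [h1, h2]
  exact karamata_hinge (fun i => val (α i)) (fun i => (a i : ℝ)) hmv hle heq m k

/-- The inequalities between the powers of `N`, the weights, the slopes and the Hodge numbers. -/
theorem chain [IsAlgClosed Ω] (hq : 1 < q) (hR : R.IsCoh q) {m : ℕ}
    (hrat : RationalPoly (charP R m)) {val : Ω → ℝ} (hv : IsVal q val) (k : ℕ) :
    (rankTail R m k : ℝ) ≤ (weightTail R q m k : ℝ) ∧
      (weightTail R q m k : ℝ) ≤ slopeTail R val m k :=
  ⟨by exact_mod_cast (tail_deg hq hR m k).1, weight_le_slope hq hR hrat hv k⟩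

end Pool.Agent.Q57.WM
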