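import Pool.Agent.Y163.MW.Gen
import Pool.Agent.Y614.MW.F
import Pool.Agent.Y461.MW.H

/-!
# Strings: the sums of the ranks of the high powers of `N`
-/

set_option autoImplicit false

open Module

namespace Pool.Agent.Q57.WM

open Pool.Agent.Y163.MW

universe u v

/-- The number `(2 (x - k) - 1)^+`. -/
def tz (k : ℕ) (x : ℤ) : ℤ := max (2 * (x - k) - 1) 0

/-- The symmetric version of `tz`. -/
def gz (k : ℕ) (x : ℤ) : ℤ := tz k x + tz k (-x)

lemma tz_nonneg (k : ℕ) (x : ℤ) : 0 ≤ tz k x := le_max_right _ _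

lemma tz_zero {k : ℕ} {x : ℤ} (h : x ≤ k) : tz k x = 0 := by
  unfold tz
  exact max_eq_right (by omega)

lemma tz_pos {k : ℕ} {x : ℤ} (h : (k : ℤ) < x) : tz k x = 2 * (x - k) - 1 := by
  unfold tz
  exact max_eq_left (by omega)

lemma gz_neg (k : ℕ) (x : ℤ) : gz k (-x) = gz k x := by
  unfold gz
  rw [neg_neg, add_comm]

lemma gz_convex (k : ℕ) (x d : ℤ) : 2 * gz k x ≤ gz k (x + d) + gz k (x - d) := by
  unfold gz tz
  simp only [max_def]
  split_ifs <;> omega

lemma gz_strict (k : ℕ) {x d : ℤ} (hx : x = k ∨ x = k + 1)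
    (h : gz k (x + d) + gz k (x - d) = 2 * gz k x) : d = 0 := by
  unfold gz tz at h
  simp only [max_def] at h
  rcases hx with rfl | rfl <;> split_ifs at h <;> omega

lemma gz_small (k : ℕ) {x d : ℤ} (hx : 0 ≤ x) (hxk : x ≤ k)
    (h : gz k (x + d) + gz k (x - d) = 2 * gz k x) : x + d ≤ k ∧ -(k : ℤ) ≤ d - x := by
  unfold gz tz at h
  simp only [max_def] at h
  split_ifs at h <;> omega

/-- The sum over a string. -/
lemma string_tail (k l : ℕ) : ∑ i ∈ Finset.range (l + 1), tz k ((l : ℤ) - 2 * (i : ℤ)) =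
    ∑ r ∈ Finset.range (l + 1), if k < r then ((l + 1 - r : ℕ) : ℤ) else 0 := by
  induction l using Nat.twoStepInduction with
  | zero =>
    simp [tz_zero]
  | one =>
    rw [Finset.sum_range_succ, Finset.sum_range_succ, Finset.sum_range_zero,
      Finset.sum_range_succ, Finset.sum_range_succ, Finset.sum_range_zero]
    unfold tz
    simp only [max_def]
    split_ifs <;> first | omega | (push_cast; omega)
  | more l ih _ =>
    have h1 : ∑ i ∈ Finset.range (l + 2 + 1), tz k (((l + 2 : ℕ) : ℤ) - 2 * (i : ℤ)) =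
        ∑ i ∈ Finset.range (l + 1), tz k ((l : ℤ) - 2 * (i : ℤ)) + tz k (l + 2) := by
      rw [Finset.sum_range_succ', Finset.sum_range_succ]
      rw [tz_zero (k := k) (x := ((l + 2 : ℕ) : ℤ) - 2 * ((l + 1 + 1 : ℕ) : ℤ))
        (by push_cast; omega), add_zero]
      have h5 : ∀ i : ℕ, ((l + 2 : ℕ) : ℤ) - 2 * ((i + 1 : ℕ) : ℤ) = (l : ℤ) - 2 * (i : ℤ) := by
        intro i
        push_cast
        ring
      have h6 : ((l + 2 : ℕ) : ℤ) - 2 * ((0 : ℕ) : ℤ) = (l : ℤ) + 2 := by
        push_cast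
        ring
      simp only [h5, h6]
    have h2 : ∀ n : ℕ, n ≤ l + 1 → (∑ r ∈ Finset.range n,
        if k < r then ((l + 2 + 1 - r : ℕ) : ℤ) else 0) =
        (∑ r ∈ Finset.range n, if k < r then ((l + 1 - r : ℕ) : ℤ) else 0) +
        ∑ r ∈ Finset.range n, if k < r then (2 : ℤ) else 0 := by
      intro n hn
      rw [← Finset.sum_add_distrib]
      refine Finset.sum_congr rfl fun r hr => ?_
      rw [Finset.mem_range] at hr
      split_ifs
      · omega
      · rfl
    have h3 : ∀ n : ℕ, (∑ r ∈ Finset.range n, if k < r then (2 : ℤ) else 0) =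
        2 * ((n - (k + 1) : ℕ) : ℤ) := by
      intro n
      induction n with
      | zero => simp
      | succ n ih =>
        rw [Finset.sum_range_succ, ih]
        split_ifs <;> omega
    rw [h1, ih, Finset.sum_range_succ (fun r => if k < r then ((l + 2 + 1 - r : ℕ) : ℤ) else 0) (l + 2),
      Finset.sum_range_succ (fun r => if k < r then ((l + 2 + 1 - r : ℕ) : ℤ) else 0) (l + 1),
      h2 (l + 1) le_rfl, h3]
    unfold tz
    simp only [max_def]
    split_ifs <;> omega

section

variable {K : Type u} [Field K] {V : Type v} [AddCommGroup V] [Module K V]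
  {gr : ℤ → Submodule K V} {N : Module.End K V}

/-- `N ^ a` is a bijection from `gr a` to `gr (-a)` for all `a > k`. -/
def PureAbove (gr : ℤ → Submodule K V) (N : Module.End K V) (k : ℕ) : Prop :=
  ∀ a : ℕ, k < a → (∀ x ∈ gr a, (N ^ a) x = 0 → x = 0) ∧
    ∀ y ∈ gr (-(a : ℤ)), ∃ x ∈ gr a, (N ^ a) x = y

/-- Every string is centred or contained in the range `[-k, k]`. -/
def Dich (S : Strings gr N) (k : ℕ) : Prop :=
  ∀ s, S.top s = S.len s ∨ (S.top s ≤ k ∧ -(k : ℤ) ≤ S.top s - 2 * (S.len s : ℤ))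

/-- The ranks of the powers of `N`. -/
lemma rank_tail (S : Strings gr N) (k : ℕ) :
    ∑ᶠ r : ℕ, (if k < r then (finrank K (LinearMap.range (N ^ r)) : ℤ) else 0) =
      ∑ p, tz k (S.ct p) := by
  have h1 : ∀ r : ℕ, (if k < r then (finrank K (LinearMap.range (N ^ r)) : ℤ) else 0) =
      ∑ s : S.ι, if k < r then ((S.len s + 1 - r : ℕ) : ℤ) else 0 := by
    intro r
    split_ifs with h
    · rw [Pool.Agent.Y461.MW.finrank_eq S r, Nat.cast_sum]
    · simp
  have hB : ∀ s : S.ι, S.len s + 1 ≤ ∑ s : S.ι, (S.len s + 1) := fun s =>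
    Finset.single_le_sum (f := fun s : S.ι => S.len s + 1) (fun _ _ => Nat.zero_le _)
      (Finset.mem_univ s)
  rw [finsum_congr h1, finsum_eq_sum_of_support_subset (s := Finset.range (∑ s : S.ι, (S.len s + 1))),
    Finset.sum_comm, Fintype.sum_sigma]
  · refine Finset.sum_congr rfl fun s _ => ?_
    have h2 : ∑ i : Fin (S.len s + 1), tz k (S.ct ⟨s, i⟩) =
        ∑ i ∈ Finset.range (S.len s + 1), tz k ((S.len s : ℤ) - 2 * (i : ℤ)) := by
      rw [Finset.sum_range]
      rfl
    rw [h2, string_tail]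
    symm
    refine Finset.sum_subset (Finset.range_subset_range.2 (hB s)) fun r _ hr => ?_
    rw [Finset.mem_range, not_lt] at hr
    rw [Nat.sub_eq_zero_of_le hr]
    simp
  · intro r hr
    rw [Function.mem_support] at hr
    rw [Finset.coe_range, Set.mem_Iio]
    by_contra hn
    apply hr
    refine Finset.sum_eq_zero fun s _ => ?_
    have := hB s
    rw [Nat.sub_eq_zero_of_le (by omega)]
    simp

/-- Sums over the weights. -/
lemma weight_sum (S : Strings gr N) (hgr : iSupIndep gr) (φ : ℤ → ℤ) :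
    ∑ᶠ c : ℤ, φ c * (finrank K (gr c) : ℤ) = ∑ p, φ (S.wt p) := by
  rw [← finsum_card S.wt φ]
  refine finsum_congr fun c => ?_
  rw [finrank_gr hgr S.b S.wt S.mem' c]

lemma weight_sum_neg (S : Strings gr N) (hgr : iSupIndep gr)
    (hsym : ∀ c, finrank K (gr c) = finrank K (gr (-c))) (φ : ℤ → ℤ) :
    ∑ p, φ (-S.wt p) = ∑ p, φ (S.wt p) := by
  rw [← weight_sum S hgr φ, ← weight_sum S hgr (fun c => φ (-c)),
    ← finsum_comp_equiv (Equiv.neg ℤ)]
  refine finsum_congr fun c => ?_
  rw [hsym c, Equiv.neg_apply, neg_neg]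

/-- Reversal of a string. -/
lemma string_rev (l : ℕ) (φ : ℤ → ℤ) :
    ∑ i : Fin (l + 1), φ ((l : ℤ) - 2 * (i : ℕ)) = ∑ i : Fin (l + 1), φ (-((l : ℤ) - 2 * (i : ℕ))) := by
  refine Fintype.sum_equiv Fin.revPerm _ _ fun i => ?_
  congr 1
  have h1 : ((Fin.revPerm i : Fin (l + 1)) : ℕ) = l - (i : ℕ) := by
    rw [Fin.revPerm_apply, Fin.val_rev]
    omega
  rw [h1]
  have := i.2
  omega

/-- Twice the difference of the two sums is a sum of nonnegative terms. -/
lemma diff_eq (S : Strings gr N) (hgr : iSupIndep gr)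
    (hsym : ∀ c, finrank K (gr c) = finrank K (gr (-c))) (k : ℕ) :
    4 * (∑ p, tz k (S.wt p) - ∑ p, tz k (S.ct p)) =
      ∑ p : Σ s : S.ι, Fin (S.len s + 1), (gz k (S.ct p + (S.top p.1 - S.len p.1)) +
        gz k (S.ct p - (S.top p.1 - S.len p.1)) - 2 * gz k (S.ct p)) := by
  have h1 : 2 * ∑ p, tz k (S.wt p) = ∑ p, gz k (S.wt p) := by
    have := weight_sum_neg S hgr hsym (tz k)
    unfold gz
    rw [Finset.sum_add_distrib, this]
    ring
  have h2 : 2 * ∑ p, tz k (S.ct p) = ∑ p, gz k (S.ct p) := by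
    unfold gz
    rw [Finset.sum_add_distrib, Fintype.sum_sigma, Fintype.sum_sigma, two_mul]
    congr 1
    refine Finset.sum_congr rfl fun s _ => ?_
    exact string_rev (S.len s) (tz k)
  have h3 : ∑ p, gz k (S.wt p) = ∑ p : Σ s : S.ι, Fin (S.len s + 1),
      gz k (S.ct p + (S.top p.1 - S.len p.1)) := by
    refine Finset.sum_congr rfl fun p _ => ?_
    congr 1
    unfold Strings.wt Strings.ct
    ring
  have h4 : ∑ p : Σ s : S.ι, Fin (S.len s + 1), gz k (S.ct p + (S.top p.1 - S.len p.1)) =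
      ∑ p : Σ s : S.ι, Fin (S.len s + 1), gz k (S.ct p - (S.top p.1 - S.len p.1)) := by
    rw [Fintype.sum_sigma, Fintype.sum_sigma]
    refine Finset.sum_congr rfl fun s _ => ?_
    have := string_rev (S.len s) (fun x => gz k (x + (S.top s - S.len s)))
    refine this.trans (Finset.sum_congr rfl fun i _ => ?_)
    simp only
    rw [← gz_neg]
    congr 1
    unfold Strings.ct
    ring
  rw [Finset.sum_sub_distrib, Finset.sum_add_distrib, ← h4, ← h3, ← Finset.mul_sum, ← h1, ← h2]
  ring

lemma sum_le (S : Strings gr N) (hgr : iSupIndep gr)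
    (hsym : ∀ c, finrank K (gr c) = finrank K (gr (-c))) (k : ℕ) :
    ∑ p, tz k (S.ct p) ≤ ∑ p, tz k (S.wt p) := by
  have h := diff_eq S hgr hsym k
  have h0 : 0 ≤ ∑ p : Σ s : S.ι, Fin (S.len s + 1), (gz k (S.ct p + (S.top p.1 - S.len p.1)) +
        gz k (S.ct p - (S.top p.1 - S.len p.1)) - 2 * gz k (S.ct p)) :=
    Finset.sum_nonneg fun p _ => by
      have := gz_convex k (S.ct p) (S.top p.1 - S.len p.1)
      linarith
  linarith

lemma sum_eq_iff (S : Strings gr N) (hgr : iSupIndep gr)
    (hsym : ∀ c, finrank K (gr c) = finrank K (gr (-c))) (k : ℕ) :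
    ∑ p, tz k (S.ct p) = ∑ p, tz k (S.wt p) ↔ Dich S k := by
  constructor
  · intro heq s
    have h := diff_eq S hgr hsym k
    rw [heq, sub_self, mul_zero] at h
    have h0 := (Finset.sum_eq_zero_iff_of_nonneg (fun p _ => by
      have := gz_convex k (S.ct p) (S.top p.1 - S.len p.1)
      linarith)).1 h.symm
    rcases Nat.lt_or_ge k (S.len s) with hk | hk
    · left
      -- the position `(len - k) / 2`
      have hi : (S.len s - k) / 2 < S.len s + 1 := by omega
      have h1 := h0 ⟨s, ⟨(S.len s - k) / 2, hi⟩⟩ (Finset.mem_univ _)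
      have h2 : S.ct ⟨s, ⟨(S.len s - k) / 2, hi⟩⟩ = k ∨
          S.ct ⟨s, ⟨(S.len s - k) / 2, hi⟩⟩ = k + 1 := by
        unfold Strings.ct
        simp only
        omega
      have h3 := gz_strict k h2 (d := S.top s - S.len s) (by
        simp only at h1
        linarith)
      omega
    · right
      have h1 := h0 ⟨s, ⟨0, by omega⟩⟩ (Finset.mem_univ _)
      have h2 : S.ct ⟨s, ⟨0, by omega⟩⟩ = S.len s := by
        unfold Strings.ct
        simp
      rw [h2] at h1
      have h3 := gz_small k (x := S.len s) (d := S.top s - S.len s) (by positivity)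
        (by exact_mod_cast hk) (by
        simp only at h1
        linarith)
      omega
  · intro h
    refine Finset.sum_congr rfl fun p _ => ?_
    obtain ⟨s, i⟩ := p
    have hi := i.2
    rcases h s with h1 | ⟨h1, h2⟩
    · unfold Strings.ct Strings.wt
      simp only
      rw [h1]
    · unfold Strings.ct Strings.wt
      simp only
      rw [tz_zero (by omega), tz_zero (by omega)]

open Pool.Agent.Y614.MW in
/-- The purity above `k` in terms of strings. -/
lemma pureAbove_iff (hgr : DirectSum.IsInternal gr) (S : Strings gr N) (k : ℕ) :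
    PureAbove gr N k ↔ Dich S k := by
  classical
  have hne : ∀ p, S.b p ≠ 0 := fun p => S.b.ne_zero p
  constructor
  · intro hC s
    set t := S.top s with ht
    set l := S.len s with hl
    have hw : S.b ⟨s, Fin.last (S.len s)⟩ ∈ gr (t - 2 * l) := by
      have := S.mem s (Fin.last (S.len s))
      simpa using this
    have hb0 : S.b ⟨s, ⟨0, by omega⟩⟩ ∈ gr t := by
      have := S.mem s ⟨0, by omega⟩
      simpa using this
    -- the bottom
    have hbot : (k : ℤ) < 2 * l - t → (l : ℤ) ≤ t := by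
      intro h
      obtain ⟨a, ha⟩ : ∃ a : ℕ, (a : ℤ) = 2 * l - t := ⟨(2 * l - t).toNat, by omega⟩
      have hw' : S.b ⟨s, Fin.last (S.len s)⟩ ∈ gr (-(a : ℤ)) := by
        rw [ha, neg_sub]
        exact hw
      obtain ⟨x, hx, hx'⟩ := (hC a (by omega)).2 _ hw'
      have hal : a ≤ l := by
        by_contra hcon
        push Not at hcon
        have h2 := repr_pow_lt S s l a (by omega) hcon x
        rw [hx', Basis.repr_self] at h2
        have e : (⟨s, Fin.last (S.len s)⟩ : Σ s : S.ι, Fin (S.len s + 1)) =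
            ⟨s, ⟨l, by omega⟩⟩ := by
          rw [Sigma.mk.injEq, heq_eq_eq, Fin.ext_iff]
          simp [hl]
        rw [e, Finsupp.single_eq_same] at h2
        exact one_ne_zero h2
      omega
    -- the top
    have htop : (k : ℤ) < t → t ≤ l := by
      intro h
      obtain ⟨c, hc⟩ : ∃ c : ℕ, (c : ℤ) = t := ⟨t.toNat, by omega⟩
      have hb0' : S.b ⟨s, ⟨0, by omega⟩⟩ ∈ gr c := by
        rw [hc]
        exact hb0
      have hcl : c ≤ l := by
        by_contra hcon
        push Not at hcon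
        refine hne _ ((hC c (by omega)).1 _ hb0' ?_)
        apply S.b.repr.injective
        rw [map_zero]
        ext ⟨s', i⟩
        rw [Finsupp.zero_apply]
        obtain ⟨i, hi⟩ := i
        rcases lt_or_ge i c with hic | hic
        · exact repr_pow_lt S s' i c hi hic _
        · obtain ⟨j, rfl⟩ := Nat.exists_eq_add_of_le' hic
          rw [repr_pow S s' j c hi, Basis.repr_self, Finsupp.single_eq_of_ne]
          intro e
          rw [Sigma.mk.injEq] at e
          obtain ⟨rfl, e⟩ := e
          omega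
      omega
    by_cases h1 : (k : ℤ) < t
    · left
      have h2 := htop h1
      have h3 := hbot (by omega)
      omega
    · by_cases h2 : (k : ℤ) < 2 * l - t
      · have h3 := hbot h2
        left
        omega
      · right
        omega
  · intro hD a hka
    have hwt : ∀ (s : S.ι) (i : ℕ) (hi : i < S.len s + 1),
        ((k : ℤ) < wt S ⟨s, ⟨i, hi⟩⟩ ∨ wt S ⟨s, ⟨i, hi⟩⟩ < -(k : ℤ)) →
        S.top s = S.len s := by
      intro s i hi h
      rcases hD s with h1 | ⟨h1, h2⟩
      · exact h1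
      · exfalso
        unfold wt at h
        simp only at h
        omega
    constructor
    · intro x hx h0
      apply S.b.repr.injective
      rw [map_zero]
      ext ⟨s, ⟨i, hi⟩⟩
      rw [Finsupp.zero_apply]
      by_cases hw : wt S ⟨s, ⟨i, hi⟩⟩ = a
      · have ht := hwt s i hi (Or.inl (by rw [hw]; exact_mod_cast hka))
        unfold wt at hw
        simp only at hw
        have := repr_pow S s i a (by omega) x
        rw [h0, map_zero, Finsupp.zero_apply] at this
        exact this.symm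
      · exact repr_eq_zero_of_mem hgr S hx _ hw
    · intro y hy
      set x : V := ∑ p : Σ s : S.ι, Fin (S.len s + 1),
        (if h : (p.2 : ℕ) + a < S.len p.1 + 1 then S.b.repr y ⟨p.1, ⟨p.2 + a, h⟩⟩ else 0) • S.b p
        with hx
      have hr : ∀ (s : S.ι) (i : ℕ) (hi : i < S.len s + 1), S.b.repr x ⟨s, ⟨i, hi⟩⟩ =
          if h : i + a < S.len s + 1 then S.b.repr y ⟨s, ⟨i + a, h⟩⟩ else 0 := by
        intro s i hi
        rw [hx]
        have := S.b.repr_sum_self (fun p => if h : (p.2 : ℕ) + a < S.len p.1 + 1 then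
          S.b.repr y ⟨p.1, ⟨p.2 + a, h⟩⟩ else 0)
        exact congrFun this ⟨s, ⟨i, hi⟩⟩
      refine ⟨x, ?_, ?_⟩
      · apply mem_of_repr S
        rintro ⟨s, ⟨i, hi⟩⟩ hw
        rw [hr]
        split_ifs with h
        · by_contra hne0
          have hw2 : wt S ⟨s, ⟨i + a, h⟩⟩ = -(a : ℤ) := by
            by_contra hcon
            exact hne0 (repr_eq_zero_of_mem hgr S hy _ hcon)
          have ht := hwt s (i + a) h (Or.inr (by rw [hw2]; omega))
          apply hw
          unfold wt at hw2 ⊢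
          simp only at hw2 ⊢
          push_cast at hw2
          omega
        · rfl
      · apply S.b.repr.injective
        ext ⟨s, ⟨i, hi⟩⟩
        rcases lt_or_ge i a with hia | hia
        · rw [repr_pow_lt S s i a hi hia]
          symm
          by_contra hne0
          have hw2 : wt S ⟨s, ⟨i, hi⟩⟩ = -(a : ℤ) := by
            by_contra hcon
            exact hne0 (repr_eq_zero_of_mem hgr S hy _ hcon)
          have ht := hwt s i hi (Or.inr (by rw [hw2]; omega))
          unfold wt at hw2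
          simp only at hw2
          omega
        · obtain ⟨j, rfl⟩ := Nat.exists_eq_add_of_le' hia
          rw [repr_pow S s j a hi, hr, dif_pos hi]

/-- The inequality for the ranks of the high powers of `N`; equality means purity above `k`. -/
theorem tail [Module.Finite K V] (hgr : DirectSum.IsInternal gr)
    (hN : ∀ r, ∀ x ∈ gr r, N x ∈ gr (r - 2))
    (hsym : ∀ c, finrank K (gr c) = finrank K (gr (-c))) (k : ℕ) :
    (∑ᶠ r : ℕ, (if k < r then (finrank K (LinearMap.range (N ^ r)) : ℤ) else 0) ≤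
      ∑ᶠ c : ℤ, tz k c * (finrank K (gr c) : ℤ)) ∧
    (∑ᶠ r : ℕ, (if k < r then (finrank K (LinearMap.range (N ^ r)) : ℤ) else 0) =
      ∑ᶠ c : ℤ, tz k c * (finrank K (gr c) : ℤ) ↔ PureAbove gr N k) := by
  obtain ⟨S⟩ := Pool.Agent.Y153.MW.stA K V gr N hgr hN
  have hi := hgr.submodule_iSupIndep
  rw [rank_tail S k, weight_sum S hi (tz k), pureAbove_iff hgr S k]
  exact ⟨sum_le S hi hsym k, sum_eq_iff S hi hsym k⟩

end

end Pool.Agent.Q57.WM
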